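import Pool.Agent.TH289.K.B3
import Pool.Agent.TH289.L.Def

/-!
# Open locally injective extensions of transitive maps are transitive (job for helper289)
-/

set_option autoImplicit false

open Filter Topology Set Metric unitInterval
open Pool.Agent.H721R2 Pool.Agent.H789R2.AN Pool.Agent.H789R2.GP Pool.Agent.TH289
  Pool.Agent.TH289.K
open Pool.Agent.TH289.L

namespace Pool.Agent.TH367.L289

/-- a point whose forward orbit visits every nonempty open set at arbitrarily large times -/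
theorem exists_dense_pt {Y : Type*} [MetricSpace Y] [CompactSpace Y] [Nonempty Y] {f' : Y ≃ₜ Y}
    (ht : TopTransitive f') :
    ∃ y : Y, ∀ U : Set Y, IsOpen U → U.Nonempty → ∀ M : ℕ, ∃ t ≥ M, f'^[t] y ∈ U := by
  obtain ⟨b, hbc, hbne, hb⟩ := TopologicalSpace.exists_countable_basis Y
  have hcount : Countable (b × ℕ) := by
    have := hbc.to_subtype
    infer_instance
  let W : b × ℕ → Set Y := fun p => ⋃ t ∈ {t : ℕ | p.2 ≤ t}, f'^[t] ⁻¹' (p.1 : Set Y)
  have hopen : ∀ p, IsOpen (W p) := by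
    rintro ⟨⟨U, hU⟩, M⟩
    refine isOpen_biUnion fun t _ => ?_
    exact (hb.isOpen hU).preimage (f'.continuous.iterate t)
  have hdense : ∀ p, Dense (W p) := by
    rintro ⟨⟨U, hU⟩, M⟩
    rw [dense_iff_inter_open]
    intro V hV hVn
    have hUn : U.Nonempty := by
      rw [nonempty_iff_ne_empty]
      rintro rfl
      exact hbne hU
    have hV' : IsOpen (f'^[M] '' V) := by
      have h1 : ∀ k : ℕ, IsOpenMap (f'^[k]) := by
        intro k
        induction k with
        | zero => exact IsOpenMap.id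
        | succ k ih =>
          rw [Function.iterate_succ']
          exact f'.isOpenMap.comp ih
      exact h1 M V hV
    obtain ⟨n, z, ⟨w, ⟨v, hv, rfl⟩, rfl⟩, hz⟩ := ht (f'^[M] '' V) U hV' (hVn.image _)
      (hb.isOpen hU) hUn
    refine ⟨v, hv, ?_⟩
    rw [mem_iUnion₂]
    refine ⟨n + M, by simp, ?_⟩
    rw [mem_preimage, Function.iterate_add_apply]
    exact hz
  obtain ⟨y, hy⟩ := (dense_iInter_of_isOpen hopen hdense).nonempty
  rw [mem_iInter] at hy
  refine ⟨y, fun U hU hUn M => ?_⟩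
  obtain ⟨u, hu⟩ := hUn
  obtain ⟨B, hB, huB, hBU⟩ := hb.exists_subset_of_mem_open hu hU
  have h1 := hy ⟨⟨B, hB⟩, M⟩
  rw [mem_iUnion₂] at h1
  obtain ⟨t, ht1, ht2⟩ := h1
  exact ⟨t, ht1, hBU ht2⟩

/-- the fibres of a locally injective map of a compact space are finite -/
theorem fib_finite {X Y : Type*} [MetricSpace X] [CompactSpace X] {h : X → Y}
    (hinj : ∃ δ > 0, ∀ x y, dist x y < δ → h x = h y → x = y) (y : Y) : (h ⁻¹' {y}).Finite := by
  obtain ⟨δ, hδ, h1⟩ := hinj
  obtain ⟨t, ht, hcov⟩ := (isCompact_univ : IsCompact (univ : Set X)).finite_cover_balls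
    (half_pos hδ)
  have hsub : h ⁻¹' {y} ⊆ ⋃ x ∈ t, (h ⁻¹' {y} ∩ ball x (δ / 2)) := by
    intro z hz
    obtain ⟨x, hx, hzx⟩ := mem_iUnion₂.1 (hcov.2 (mem_univ z))
    exact mem_iUnion₂.2 ⟨x, hx, hz, hzx⟩
  refine (hcov.1.biUnion fun x _ => ?_).subset hsub
  refine Set.Subsingleton.finite ?_
  rintro a ⟨ha1, ha2⟩ b ⟨hb1, hb2⟩
  refine h1 a b ?_ (ha1.trans hb1.symm)
  have := dist_triangle_right a b x
  rw [mem_ball] at ha2 hb2
  linarith

end Pool.Agent.TH367.L289

open Pool.Agent.TH367.L289 in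
theorem open_trans {X Y : Type*} [MetricSpace X] [CompactSpace X] [ConnectedSpace X]
    [MetricSpace Y] [CompactSpace Y] {f : X ≃ₜ X} {f' : Y ≃ₜ Y} {N : ℕ} (hN : 1 ≤ N) {c : ℝ}
    (hg : LP (iterHomeo f N) c) {h : X → Y} (H : SC f f' h) (ho : IsOpenMap h)
    (ht : TopTransitive f') (hinj : ∃ δ > 0, ∀ x y, dist x y < δ → h x = h y → x = y) :
    TopTransitive f := by
  have hXne : Nonempty X := inferInstance
  have hYne : Nonempty Y := hXne.map h
  obtain ⟨y, hy⟩ := exists_dense_pt ht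
  have hK := fib_finite hinj y
  have hKt : Finite (h ⁻¹' {y}) := hK
  -- every point is recurrent enough
  have claim : ∀ O : Set X, IsOpen O → O.Nonempty → ∀ m : ℕ, ∃ x ∈ O, ∃ n ≥ m,
      (iterHomeo f N)^[n] x ∈ O := by
    intro O hO hOn m
    have hinf : {t : ℕ | f'^[t] y ∈ h '' O}.Infinite := by
      rw [Set.infinite_iff_exists_gt]
      intro a
      obtain ⟨t, ht1, ht2⟩ := hy (h '' O) (ho O hO) (hOn.image h) (a + 1)
      exact ⟨t, ht2, by omega⟩
    have hex : ∀ t : {t : ℕ | f'^[t] y ∈ h '' O}, ∃ x : h ⁻¹' {y}, f^[(t : ℕ)] x ∈ O := by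
      rintro ⟨t, o, ho1, ho2⟩
      refine ⟨⟨f.symm^[t] o, ?_⟩, ?_⟩
      · show h (f.symm^[t] o) = y
        rw [H.iter', ho2, iterL]
      · show f^[t] (f.symm^[t] o) ∈ O
        rw [iterR]
        exact ho1
    choose ξ hξ using hex
    have hinf' : Infinite {t : ℕ | f'^[t] y ∈ h '' O} := hinf.to_subtype
    have hNpos : 0 < N := hN
    obtain ⟨⟨x, r⟩, hxr⟩ := Finite.exists_infinite_fiber
      (fun t : {t : ℕ | f'^[t] y ∈ h '' O} =>
        ((ξ t, ⟨(t : ℕ) % N, Nat.mod_lt _ hNpos⟩) : (h ⁻¹' {y}) × Fin N))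
    have hset : ∀ a : ℕ, ∃ t : {t : ℕ | f'^[t] y ∈ h '' O}, a < (t : ℕ) ∧ ξ t = x ∧
        (t : ℕ) % N = r := by
      intro a
      by_contra hcon
      push Not at hcon
      rw [Set.infinite_coe_iff] at hxr
      apply hxr
      have : ((fun t : {t : ℕ | f'^[t] y ∈ h '' O} =>
        ((ξ t, ⟨(t : ℕ) % N, Nat.mod_lt _ hNpos⟩) : (h ⁻¹' {y}) × Fin N)) ⁻¹' {(x, r)}) ⊆
        (fun t : {t : ℕ | f'^[t] y ∈ h '' O} => (t : ℕ)) ⁻¹' (Set.Iic a) := by
        intro t ht'
        rw [mem_preimage, mem_singleton_iff, Prod.mk.injEq] at ht'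
        rw [mem_preimage, Set.mem_Iic]
        by_contra hta
        push Not at hta
        exact hcon t hta ht'.1 (by rw [← ht'.2])
      exact ((Set.finite_Iic a).preimage Subtype.val_injective.injOn).subset this
    obtain ⟨t1, -, h1x, h1r⟩ := hset 0
    obtain ⟨t2, h2a, h2x, h2r⟩ := hset ((t1 : ℕ) + N * m)
    have hmod : (t2 : ℕ) - t1 = N * (((t2 : ℕ) - t1) / N) := by
      have h3 : (t1 : ℕ) ≡ t2 [MOD N] := by
        show (t1 : ℕ) % N = t2 % N
        rw [h1r, h2r]
      have h4 : N ∣ (t2 : ℕ) - t1 := (Nat.modEq_iff_dvd' (by omega)).1 h3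
      exact (Nat.mul_div_cancel' h4).symm
    refine ⟨f^[(t1 : ℕ)] x, ?_, ((t2 : ℕ) - t1) / N, ?_, ?_⟩
    · rw [← h1x]
      exact hξ t1
    · rw [ge_iff_le, Nat.le_div_iff_mul_le hNpos, Nat.mul_comm]
      omega
    · rw [iterHomeo_iter, ← hmod, ← Function.iterate_add_apply, Nat.sub_add_cancel (by omega),
        ← h2x]
      exact hξ t2
  -- attractors are open
  have hun : ∀ A, IsAtt (iterHomeo f N) A → A = univ := by
    intro A hA
    obtain ⟨δ, hδ, hnear⟩ := hg.near
    have hopen : IsOpen A := by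
      rw [Metric.isOpen_iff]
      intro a ha
      refine ⟨δ, hδ, fun z hz => ?_⟩
      by_contra hzA
      have hr : 0 < infDist z A := (hA.closed.notMem_iff_infDist_pos hA.nonempty).1 hzA
      set r := infDist z A with hrdef
      rw [mem_ball] at hz
      have hρ : 0 < min (r / 2) (δ - dist z a) := lt_min (half_pos hr) (by linarith)
      have h5 : Tendsto (fun n : ℕ => c * (1 / 2 : ℝ) ^ n) atTop (𝓝 0) := by
        have := (tendsto_pow_atTop_nhds_zero_of_lt_one (by norm_num : (0:ℝ) ≤ 1 / 2)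
          (by norm_num)).const_mul c
        simpa using this
      obtain ⟨m, hm⟩ := eventually_atTop.mp ((tendsto_order.mp h5).2 (r / 2) (half_pos hr))
      obtain ⟨x, hx, n, hn, hxn⟩ := claim (ball z (min (r / 2) (δ - dist z a))) isOpen_ball
        ⟨z, mem_ball_self hρ⟩ m
      rw [mem_ball] at hx hxn
      have h6 : dist x a < δ := by
        have h7 := dist_triangle x z a
        have h8 := hx.trans_le (min_le_right (r / 2) (δ - dist z a))
        linarith
      obtain ⟨w, hw, hxw⟩ := hnear A hA a ha x h6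
      have h9 := hg.cS _ _ hxw n
      have h10 : infDist ((iterHomeo f N)^[n] x) A ≤ dist ((iterHomeo f N)^[n] x)
          ((iterHomeo f N)^[n] w) := infDist_le_dist_of_mem ((inv_iter hA.inv n w).2 hw)
      have h11 : r ≤ infDist ((iterHomeo f N)^[n] x) A + dist z ((iterHomeo f N)^[n] x) :=
        infDist_le_infDist_add_dist
      have h12 := hxn.trans_le (min_le_left (r / 2) (δ - dist z a))
      rw [dist_comm] at h12
      have h13 := hm n hn
      linarith
    exact (IsClopen.eq_univ ⟨hA.closed, hopen⟩ hA.nonempty)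
  intro U V hU hUn hV hVn
  obtain ⟨n, hn⟩ := transitive_of_unique hg hun U V hU hUn hV hVn
  refine ⟨N * n, ?_⟩
  have e1 : (iterHomeo f N)^[n] = f^[N * n] := funext fun z => iterHomeo_iter f N n z
  rwa [← e1]
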